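import Pool.Agent.H43R2.Cplx.EMeas
import Mathlib

/-!
# A lower bound for `|q e - p|` with a logarithmic factor
-/

set_option autoImplicit false

namespace Pool.Agent.W47.LC

open Real

theorem eBound (q : ℕ) (hq : 1 ≤ q) (p : ℤ) :
    (1 / 1000 : ℝ) ≤ (q : ℝ) * (1 + Real.log q) ^ 1 * |q * Real.exp 1 - p| := by
  obtain ⟨n, hn, h⟩ := Pool.Agent.H43R2.Cplx.EMeas.lower q hq p
  have hqR : (1 : ℝ) ≤ q := by exact_mod_cast hq
  have hlq : 0 ≤ Real.log q := Real.log_nonneg hqR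
  have hl2 := Real.log_two_gt_d9
  have hl2' := Real.log_two_lt_d9
  have h1 : (n : ℝ) * Real.log 2 ≤ 3 * Real.log 2 + Real.log q := by
    have h2 : ((2 : ℝ)) ^ n ≤ 8 * q := by
      have : (2 : ℝ) ^ n < 8 * q := by exact_mod_cast hn
      exact this.le
    have h3 := Real.log_le_log (by positivity) h2
    rw [Real.log_pow, Real.log_mul (by norm_num) (by positivity),
      show (8 : ℝ) = 2 ^ 3 by norm_num, Real.log_pow] at h3
    push_cast at h3
    exact h3
  have h2 : (n : ℝ) ≤ 3 + 2 * Real.log q := by nlinarith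
  have h3 : (8 * (4 * n + 3) * q : ℝ) ≤ 1000 * ((q : ℝ) * (1 + Real.log q)) := by
    nlinarith
  have hpos : (0 : ℝ) < 8 * (4 * n + 3) * q := by positivity
  have h4 : 1 / (1000 * ((q : ℝ) * (1 + Real.log q))) ≤ |q * Real.exp 1 - p| :=
    (one_div_le_one_div_of_le hpos h3).trans h
  rw [pow_one]
  have h5 : 0 < (q : ℝ) * (1 + Real.log q) := by positivity
  calc (1 / 1000 : ℝ) = (q : ℝ) * (1 + Real.log q) * (1 / (1000 * ((q : ℝ) * (1 + Real.log q)))) := by
        field_simp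
    _ ≤ _ := mul_le_mul_of_nonneg_left h4 h5.le

end Pool.Agent.W47.LC
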