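import Pool.Agent.H346R2.L2.Main

/-!
# A measure of irrationality of `log 2` valid for all denominators
-/

set_option autoImplicit false

open Filter

namespace Pool.Agent.W47.LC

open Pool.Agent.H346R2.L2

/-- cleared coefficient of `log 2` -/
noncomputable def An' (n : ℕ) : ℝ := 2 ^ (10 * n) * An n

/-- cleared rational part -/
noncomputable def Bn' (n : ℕ) : ℝ := 2 ^ (10 * n) * Bn n

lemma two_pow_le (n : ℕ) : (2 : ℝ) ^ (10 * n) ≤ Real.exp (6.9315 * n) := by
  have h1 : (2 : ℝ) ^ (10 * n) = Real.exp ((10 * n : ℕ) * Real.log 2) := by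
    rw [Real.exp_nat_mul, Real.exp_log (by norm_num)]
  rw [h1]
  apply Real.exp_le_exp.mpr
  have h8 := Real.log_two_lt_d9
  push_cast
  have : (0 : ℝ) ≤ n := Nat.cast_nonneg n
  nlinarith

theorem ln2_eventually : ∀ᶠ q : ℕ in atTop, ∀ p : ℤ,
    Real.exp (-(3.211 * Real.log q)) ≤ |q * Real.log 2 - p| := by
  have hM := Mn_bounds 0.0001 (by norm_num)
  have hsv := sav_ge
  obtain ⟨c0, hc0⟩ : ∃ c0 : ℝ, c0 = 2 ^ 10 * (2 ^ 42 * 9 ^ 12 * Real.exp 100) := ⟨_, rfl⟩
  have hP := poly_exp c0 0.0001 (by norm_num)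
  have hall : ∀ᶠ n : ℕ in atTop, (Real.exp ((22 - sav - 0.0001) * n) ≤ Mn n ∧
      (Mn n : ℝ) ≤ Real.exp ((22 - sav + 0.0001) * n)) ∧
      (Mn (n + 1) : ℝ) ≤ Real.exp ((22 - sav + 0.0001) * ((n + 1 : ℕ) : ℝ)) ∧
      c0 * (22 * (n : ℝ) + 23) ^ 44 ≤ Real.exp (0.0001 * n) ∧ 2400 ≤ n := by
    have hM' : ∀ᶠ n : ℕ in atTop, (Mn (n + 1) : ℝ) ≤ Real.exp ((22 - sav + 0.0001) * ((n + 1 : ℕ) : ℝ)) :=
      ((tendsto_add_atTop_nat 1).eventually hM).mono fun n hn => hn.2
    filter_upwards [hM, hM', hP, eventually_ge_atTop 2400] with n h1 h2 h3 h5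
    exact ⟨h1, h2, h3, h5⟩
  obtain ⟨n0, hn0⟩ := eventually_atTop.mp hall
  have hmain := abstract_measure (Real.log 2) irrational_log_two An' Bn' n0 86.1917 26.8482 0.0004 3.211 1
    0 0
    (by
      intro n _
      obtain ⟨a, ha⟩ := An_int n
      exact ⟨2 ^ (10 * n) * a, by rw [An', ha]; push_cast; ring⟩)
    (by
      intro n hn
      obtain ⟨-, -, -, h5⟩ := hn0 n hn
      obtain ⟨b, hb⟩ := Bn_int n h5
      exact ⟨b, by rw [Bn', ← hb]; simp⟩)
    (by
      intro n hn
      obtain ⟨-, -, -, h5⟩ := hn0 n hn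
      have h1 : (0 : ℝ) < Mn n := by exact_mod_cast Mn_pos n
      have h2 : 0 < An n := mul_pos h1 (gr_pos n (by omega) _)
      rw [An']
      positivity)
    (by
      intro n hn
      obtain ⟨⟨-, h1⟩, -, -, h5⟩ := hn0 n hn
      have h2 := form_small n (by omega) h1
      have e : An' n * Real.log 2 + Bn' n = 2 ^ (10 * n) * (An n * Real.log 2 + Bn n) := by
        rw [An', Bn']; ring
      rw [e, abs_mul, abs_of_pos (by positivity : (0 : ℝ) < 2 ^ (10 * n))]
      calc (2 : ℝ) ^ (10 * n) * |An n * Real.log 2 + Bn n|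
          ≤ Real.exp (6.9315 * n) * Real.exp (-(33.7797 * n)) :=
            mul_le_mul (two_pow_le n) h2 (abs_nonneg _) (Real.exp_pos _).le
        _ = Real.exp (6.9315 * n + -(33.7797 * n)) := by rw [Real.exp_add]
        _ ≤ _ := by
            apply Real.exp_le_exp.mpr
            linarith)
    (by
      intro n hn
      obtain ⟨⟨-, h1⟩, -, -, h5⟩ := hn0 n hn
      rw [An', An]
      calc (2 : ℝ) ^ (10 * n) * (Mn n * gr n (22 * n))
          ≤ Real.exp (6.9315 * n) * (Real.exp ((22 - sav + 0.0001) * n) * Real.exp (60.78 * n)) := by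
            apply mul_le_mul (two_pow_le n) _ (mul_nonneg (Nat.cast_nonneg _) (gr_nonneg _ _))
              (Real.exp_pos _).le
            exact mul_le_mul h1 (gr_le n) (gr_nonneg _ _) (Real.exp_pos _).le
        _ = Real.exp (6.9315 * n + ((22 - sav + 0.0001) * n + 60.78 * n)) := by
            rw [Real.exp_add, Real.exp_add]
        _ ≤ Real.exp (86.1917 * n) := by
            apply Real.exp_le_exp.mpr
            have : (0 : ℝ) ≤ n := Nat.cast_nonneg n
            nlinarith)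
    (by
      intro n hn
      obtain ⟨⟨h0, -⟩, h2, h3, h5⟩ := hn0 n hn
      rw [An', An', An, An]
      have hr := gr_ratio n (by omega)
      have hg := gr_nonneg n (22 * n)
      have hsv22 : sav ≤ 22 := by
        by_contra hcon
        push Not at hcon
        have hMlim := log_Mn_lim
        have hnn : ∀ n : ℕ, 0 ≤ Real.log (Mn n) / n := by
          intro n
          apply div_nonneg _ (Nat.cast_nonneg _)
          apply Real.log_nonneg
          exact_mod_cast Mn_pos n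
        have := ge_of_tendsto' hMlim hnn
        linarith
      have hMM : (Mn (n + 1) : ℝ) ≤ Real.exp 100 * Real.exp (0.0002 * n) * Mn n := by
        calc (Mn (n + 1) : ℝ) ≤ Real.exp ((22 - sav + 0.0001) * ((n + 1 : ℕ) : ℝ)) := h2
          _ ≤ Real.exp (100 + (0.0002 * n + (22 - sav - 0.0001) * n)) := by
              apply Real.exp_le_exp.mpr
              push_cast
              nlinarith
          _ = Real.exp 100 * Real.exp (0.0002 * n) * Real.exp ((22 - sav - 0.0001) * n) := by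
              rw [Real.exp_add, Real.exp_add]; ring
          _ ≤ _ := by gcongr
      have h6 : (2 : ℝ) ^ (10 * (n + 1)) = 2 ^ 10 * 2 ^ (10 * n) := by ring
      calc (2 : ℝ) ^ (10 * (n + 1)) * ((Mn (n + 1) : ℝ) * gr (n + 1) (22 * (n + 1)))
          ≤ (2 ^ 10 * 2 ^ (10 * n)) * ((Real.exp 100 * Real.exp (0.0002 * n) * Mn n) *
              (2 ^ 42 * 9 ^ 12 * (22 * n + 23) ^ 44 * gr n (22 * n))) := by
            rw [h6]
            apply mul_le_mul_of_nonneg_left _ (by positivity)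
            apply mul_le_mul hMM hr (gr_nonneg _ _) (by positivity)
        _ = (c0 * (22 * (n : ℝ) + 23) ^ 44) * Real.exp (0.0002 * n) *
              (2 ^ (10 * n) * (Mn n * gr n (22 * n))) := by
            rw [hc0]; ring
        _ ≤ Real.exp (0.0001 * n) * Real.exp (0.0002 * n) *
              (2 ^ (10 * n) * (Mn n * gr n (22 * n))) := by
            gcongr
        _ = Real.exp (0.0001 * n + 0.0002 * n) * (2 ^ (10 * n) * (Mn n * gr n (22 * n))) := by
            rw [Real.exp_add]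
        _ ≤ Real.exp (0.0004 * n) * (2 ^ (10 * n) * (Mn n * gr n (22 * n))) := by
            apply mul_le_mul_of_nonneg_right _ (by positivity)
            apply Real.exp_le_exp.mpr
            have : (0 : ℝ) ≤ n := Nat.cast_nonneg n
            linarith)
    (by norm_num) (by norm_num) (by norm_num) (by norm_num)
    (by norm_num)
    (by norm_num)
  filter_upwards [hmain] with q hq p
  exact hq 0 0 (by simp) (by simp) (by simp) p

/-- from all large denominators to all denominators -/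
lemma allDen (x ν : ℝ) (hν : 0 ≤ ν) (hx : Irrational x)
    (h : ∀ᶠ q : ℕ in atTop, ∀ p : ℤ, Real.exp (-(ν * Real.log q)) ≤ |q * x - p|) :
    ∃ c0 : ℝ, 0 < c0 ∧ ∀ q : ℕ, 1 ≤ q → ∀ p : ℤ, c0 ≤ (q : ℝ) ^ ν * |q * x - p| := by
  obtain ⟨Q, hQ⟩ := eventually_atTop.1 h
  have hpos : ∀ q : ℕ, 1 ≤ q → 0 < |(q : ℝ) * x - round ((q : ℝ) * x)| := by
    intro q hq
    rw [abs_pos]
    intro h0
    have hq0 : (q : ℝ) ≠ 0 := by
      have : (0 : ℝ) < q := by exact_mod_cast hq
      exact this.ne'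
    apply hx
    refine ⟨((round ((q : ℝ) * x) : ℤ) : ℚ) / (q : ℚ), ?_⟩
    push_cast
    rw [div_eq_iff hq0]
    linarith
  have hfin : ∀ N : ℕ, ∃ c : ℝ, 0 < c ∧ c ≤ 1 ∧ ∀ q : ℕ, 1 ≤ q → q < N → ∀ p : ℤ,
      c ≤ |(q : ℝ) * x - p| := by
    intro N
    induction N with
    | zero => exact ⟨1, one_pos, le_rfl, fun q _ h => by omega⟩
    | succ N ih =>
      obtain ⟨c, hc, hc1, hcN⟩ := ih
      rcases Nat.eq_zero_or_pos N with h0 | hN
      · exact ⟨1, one_pos, le_rfl, fun q h1 h2 => by omega⟩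
      refine ⟨min c |(N : ℝ) * x - round ((N : ℝ) * x)|, lt_min hc (hpos N hN),
        (min_le_left _ _).trans hc1, fun q h1 h2 p => ?_⟩
      rcases Nat.lt_succ_iff_lt_or_eq.1 h2 with h3 | h3
      · exact (min_le_left _ _).trans (hcN q h1 h3 p)
      · subst h3
        exact (min_le_right _ _).trans (round_le _ _)
  obtain ⟨c, hc, hc1, hcN⟩ := hfin Q
  refine ⟨c, hc, fun q hq p => ?_⟩
  have hqR : (1 : ℝ) ≤ q := by exact_mod_cast hq
  have hq0 : (0 : ℝ) < q := by linarith
  rcases lt_or_ge q Q with h1 | h1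
  · have h2 : 1 ≤ (q : ℝ) ^ ν := Real.one_le_rpow hqR hν
    have h3 := hcN q hq h1 p
    nlinarith [abs_nonneg ((q : ℝ) * x - p)]
  · have h2 := hQ q h1 p
    have h3 : Real.exp (-(ν * Real.log q)) * (q : ℝ) ^ ν = 1 := by
      rw [Real.rpow_def_of_pos hq0, ← Real.exp_add]
      rw [show -(ν * Real.log q) + Real.log q * ν = 0 by ring, Real.exp_zero]
    have h4 : 0 < (q : ℝ) ^ ν := by positivity
    have h5 := mul_le_mul_of_nonneg_left h2 h4.le
    linarith

theorem ln2 : ∃ c0 : ℝ, 0 < c0 ∧ ∀ q : ℕ, 1 ≤ q → ∀ p : ℤ,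
    c0 ≤ (q : ℝ) ^ (3.211 : ℝ) * |q * Real.log 2 - p| :=
  allDen (Real.log 2) 3.211 (by norm_num) irrational_log_two ln2_eventually

end Pool.Agent.W47.LC
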