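import Pool.Agent.H831R3.LC.Final

/-!
# Linear complexity of the digits with an error term: the basic inequality
-/

set_option autoImplicit false

namespace Pool.Agent.W47.LC

open Finset Polynomial Filter
open Pool.Agent.H831R3.LC (W small descend approx dig dig_abs W_eq complexity IsRec isRec_self
  exists_int_mult)

/-- a recurrence of a block of digits gives a good rational approximation -/
theorem key (x : ℝ) (b : ℕ) (hb : 2 ≤ b) (n k r K : ℕ) (hn : 1 ≤ n) (hk : 1 ≤ k)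
    (hK : n ≤ K * k) (hr : n ≤ r) (c : ℤ[X]) (hc : c ≠ 0) (hcn : c.natDegree < n)
    (hrel : ∀ i < r + k, W c (fun i => dig x b (i + 1)) i = 0)
    (hbig : (n + k) * ((n + k) * b) ^ K * b < b ^ r) :
    ∃ q : ℕ, ∃ p : ℤ, 1 ≤ q ∧
      (q : ℝ) ≤ (n + k : ℕ) * (((n + k) * b) ^ K : ℕ) * (b : ℝ) ^ (n + k - 1) ∧
      |(q : ℝ) * x - p| * (b : ℝ) ^ r ≤ (n + k : ℕ) * (((n + k) * b) ^ K : ℕ) := by
  obtain ⟨t, ht0, htd, htH, htr⟩ := small (fun i => dig x b (i + 1)) b (by omega)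
    (fun i => dig_abs x b (by omega) _) n k r K hn hk hK hr c hc hcn hrel
  set H : ℕ := ((n + k) * b) ^ K with hH
  obtain ⟨s, hsd, hsH, hsr, hs0⟩ := descend (fun i => dig x b (i + 1)) b b H (n + k - 1) r hb
    (fun i => dig_abs x b (by omega) _)
    (by rw [show n + k - 1 + 1 = n + k by omega]; exact hbig)
    t.natDegree t rfl (by omega) ht0 htH htr
  obtain ⟨p, hp⟩ := approx x b H r (by omega) s hsH hsr
  have hbR : (2 : ℝ) ≤ b := by exact_mod_cast hb
  have hb0 : (0 : ℝ) < b := by linarith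
  have hH0 : 0 < H := by rw [hH]; positivity
  have hHR : (0 : ℝ) < H := by exact_mod_cast hH0
  have hQ : |s.eval (b : ℤ)| ≤ (n + k : ℕ) * H * (b : ℤ) ^ (n + k - 1) := by
    rw [eval_eq_sum_range]
    calc |∑ j ∈ range (s.natDegree + 1), s.coeff j * (b : ℤ) ^ j|
        ≤ ∑ j ∈ range (s.natDegree + 1), |s.coeff j * (b : ℤ) ^ j| :=
          Finset.abs_sum_le_sum_abs _ _
      _ ≤ ∑ _j ∈ range (s.natDegree + 1), (H : ℤ) * (b : ℤ) ^ (n + k - 1) := by
          refine Finset.sum_le_sum fun j hj => ?_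
          rw [mem_range] at hj
          rw [abs_mul, abs_of_nonneg (by positivity : (0 : ℤ) ≤ (b : ℤ) ^ j)]
          refine mul_le_mul (hsH j) ?_ (by positivity) (by positivity)
          exact pow_le_pow_right₀ (by omega) (by omega)
      _ = (s.natDegree + 1 : ℕ) * H * (b : ℤ) ^ (n + k - 1) := by
          rw [Finset.sum_const, card_range, nsmul_eq_mul]; ring
      _ ≤ (n + k : ℕ) * H * (b : ℤ) ^ (n + k - 1) := by
          have : ((s.natDegree + 1 : ℕ) : ℤ) ≤ (n + k : ℕ) := by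
            exact_mod_cast (by omega : s.natDegree + 1 ≤ n + k)
          gcongr
  obtain ⟨q, hq⟩ : ∃ q : ℕ, q = (s.eval (b : ℤ)).natAbs := ⟨_, rfl⟩
  have hq1 : 1 ≤ q := by
    rw [hq]
    exact Int.natAbs_pos.2 hs0
  have hqR : (q : ℝ) = |((s.eval (b : ℤ) : ℤ) : ℝ)| := by
    rw [hq, Nat.cast_natAbs, Int.cast_abs]
  have hqle : (q : ℝ) ≤ (n + k : ℕ) * H * (b : ℝ) ^ (n + k - 1) := by
    rw [hqR]
    exact_mod_cast hQ
  have hse : ((s.natDegree : ℝ) + 1) ≤ (n + k : ℕ) := by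
    exact_mod_cast (by omega : s.natDegree + 1 ≤ n + k)
  have hp2 : |((s.eval (b : ℤ) : ℤ) : ℝ) * x - p| * (b : ℝ) ^ r ≤ (n + k : ℕ) * H :=
    hp.trans (mul_le_mul_of_nonneg_right hse hHR.le)
  rcases abs_cases ((s.eval (b : ℤ) : ℤ) : ℝ) with ⟨h1, _⟩ | ⟨h1, _⟩
  · exact ⟨q, p, hq1, hqle, by rw [hqR, h1]; exact hp2⟩
  · refine ⟨q, -p, hq1, hqle, ?_⟩
    rw [hqR, h1, ← abs_neg]
    have e : -(-((s.eval (b : ℤ) : ℤ) : ℝ) * x - ((-p : ℤ) : ℝ))
        = ((s.eval (b : ℤ) : ℤ) : ℝ) * x - p := by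
      push_cast
      ring
    rw [e]
    exact hp2

end Pool.Agent.W47.LC
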