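import Pool.Agent.W47.LC.Key

/-!
# Linear complexity of the digits with an error term
-/

set_option autoImplicit false
set_option maxHeartbeats 4000000

namespace Pool.Agent.W47.LC

open Finset Polynomial Filter
open Pool.Agent.H831R3.LC (W small descend approx dig dig_abs W_eq complexity IsRec isRec_self
  exists_int_mult)

/-- numerical estimate of the logarithm of the denominator -/
lemma log_bound (L B s K ell U : ℝ) (hL : 1 ≤ L) (hB : 1 / 2 ≤ B) (hl : 1 / 2 ≤ ell)
    (hlL : ell ≤ L) (hs0 : 0 ≤ s) (hs : s ^ 2 = L * ell) (hsL : s ≤ L) (hK0 : 0 ≤ K)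
    (hKl : K * ell ≤ 2 * s) (hU0 : 0 ≤ U) (hU : U ≤ ell + K * (ell + B) + L * B) :
    Real.log (1 + U) ≤ 15 * (s * B) := by
  have hK : K ≤ 4 * s := by nlinarith
  have h1 : 1 + U ≤ 13 * (L * B) := by
    have a1 : 1 ≤ 2 * (L * B) := by nlinarith
    have a2 : ell ≤ 2 * (L * B) := by nlinarith
    have a3 : K * ell ≤ 4 * (L * B) := by nlinarith
    have a4 : K * B ≤ 4 * (L * B) := by nlinarith
    nlinarith
  have hLB : 0 < L * B := by positivity
  have h2 : Real.log (1 + U) ≤ Real.log (13 * (L * B)) := Real.log_le_log (by linarith) h1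
  have h3 : Real.log (13 * (L * B)) ≤ 2 * Real.sqrt (13 * (L * B)) := by
    have e : Real.log (13 * (L * B)) = 2 * Real.log (Real.sqrt (13 * (L * B))) := by
      rw [Real.log_sqrt (by positivity)]; ring
    rw [e]
    have := Real.log_le_sub_one_of_pos (Real.sqrt_pos.2 (by positivity : 0 < 13 * (L * B)))
    linarith
  have h4 : Real.sqrt (13 * (L * B)) ≤ 7.5 * (s * B) := by
    apply Real.sqrt_le_iff.2
    refine ⟨by positivity, ?_⟩
    have e : (7.5 * (s * B)) ^ 2 = 56.25 * (L * ell) * B ^ 2 := by rw [← hs]; ring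
    rw [e]
    have h5 : L * B ≤ 4 * (L * ell) * B ^ 2 := by
      have h6 : 1 ≤ 4 * (ell * B) := by nlinarith
      have := mul_le_mul_of_nonneg_left h6 hLB.le
      nlinarith
    nlinarith
  linarith

theorem main2 (x : ℝ) (A : ℕ) (c0 : ℝ) (hc0 : 0 < c0)
    (hx : ∀ q : ℕ, 1 ≤ q → ∀ p : ℤ, c0 ≤ (q : ℝ) * (1 + Real.log q) ^ A * |q * x - p|) :
    ∃ C : ℝ, 1 ≤ C ∧ ∀ L : ℕ, 1 ≤ L → ∀ b : ℕ, 2 ≤ b → ∀ m : ℕ,
      (m : ℝ) + C * Real.sqrt (L * Real.log (L + 1)) ≤ L / 2 → ∀ c : ℤ[X],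
      c.natDegree ≤ m → (∀ i, i + m < L → W c (fun i => dig x b (i + 1)) i = 0) → c = 0 := by
  obtain ⟨a0, ha0⟩ : ∃ a0 : ℝ, a0 = |Real.log c0| := ⟨_, rfl⟩
  have ha00 : 0 ≤ a0 := by rw [ha0]; exact abs_nonneg _
  obtain ⟨C, hC⟩ : ∃ C : ℝ, C = 40 + 8 * A + a0 := ⟨_, rfl⟩
  have hA0 : (0 : ℝ) ≤ A := Nat.cast_nonneg A
  have hC1 : 40 ≤ C := by rw [hC]; linarith
  refine ⟨C, by linarith, fun L hL1 b hb m hm c hcm hrel => ?_⟩
  by_contra hc
  have hLR : (1 : ℝ) ≤ L := by exact_mod_cast hL1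
  obtain ⟨ell, hell⟩ : ∃ ell : ℝ, ell = Real.log ((L : ℝ) + 1) := ⟨_, rfl⟩
  obtain ⟨s, hs⟩ : ∃ s : ℝ, s = Real.sqrt (L * Real.log (L + 1)) := ⟨_, rfl⟩
  rw [← hs] at hm
  rw [← hell] at hs
  have hl2 := Real.log_two_gt_d9
  have hl : 1 / 2 ≤ ell := by
    have := Real.log_le_log (by norm_num) (by linarith : (2 : ℝ) ≤ L + 1)
    rw [hell]; linarith
  have hlL : ell ≤ L := by
    have := Real.log_le_sub_one_of_pos (by linarith : (0 : ℝ) < L + 1)
    rw [hell]; linarith
  have hs2 : s ^ 2 = L * ell := by rw [hs, Real.sq_sqrt (by positivity)]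
  have hs0 : 0 < s := by rw [hs]; exact Real.sqrt_pos.2 (by positivity)
  have hm0 : (0 : ℝ) ≤ m := Nat.cast_nonneg m
  have hCs : 2 * C * s ≤ L := by linarith
  have hsl : 2 * C * ell ≤ s := by
    have h1 : 2 * C * s * ell ≤ s * s := by nlinarith
    have h2 : (2 * C * ell) * s ≤ s * s := by linarith
    exact le_of_mul_le_mul_right h2 hs0
  have hs80 : 80 * ell ≤ s := by nlinarith
  have hs40 : 40 ≤ s := by linarith
  have hsL : s ≤ L := by nlinarith
  obtain ⟨K, hK⟩ : ∃ K : ℕ, K = ⌈s / ell⌉₊ := ⟨_, rfl⟩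
  have hl0 : 0 < ell := by linarith
  have hK1 : s / ell ≤ K := by rw [hK]; exact Nat.le_ceil _
  have hK2 : (K : ℝ) < s / ell + 1 := by rw [hK]; exact Nat.ceil_lt_add_one (by positivity)
  have hKpos : 0 < K := by
    have : (0 : ℝ) < K := lt_of_lt_of_le (by positivity) hK1
    exact_mod_cast this
  have hKR : (0 : ℝ) < K := by exact_mod_cast hKpos
  have hKl : K * ell ≤ 2 * s := by
    have h1 : (K : ℝ) * ell ≤ (s / ell + 1) * ell := mul_le_mul_of_nonneg_right hK2.le hl0.le
    have h2 : (s / ell + 1) * ell = s + ell := by field_simp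
    linarith
  have hK4 : (K : ℝ) ≤ 4 * s := by nlinarith
  obtain ⟨k, hk⟩ : ∃ k : ℕ, k = (m + 1) / K + 1 := ⟨_, rfl⟩
  have hk1 : 1 ≤ k := by
    rw [hk]
    exact Nat.le_add_left 1 _
  have hmL : (m : ℝ) + 1 ≤ L := by nlinarith
  have hkR : (k : ℝ) ≤ s + 1 := by
    have h1 : (k : ℝ) ≤ ((m + 1 : ℕ) : ℝ) / K + 1 := by
      rw [hk]
      push_cast
      have := @Nat.cast_div_le ℝ _ _ _ (m + 1) K
      push_cast at this
      linarith
    have h2 : ((m + 1 : ℕ) : ℝ) / K ≤ s := by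
      rw [div_le_iff₀ hKR]
      have h3 : s * (s / ell) = L := by
        field_simp
        linarith
      have h4 : s * (s / ell) ≤ s * K := mul_le_mul_of_nonneg_left hK1 hs0.le
      push_cast
      linarith
    linarith
  have hkpos : (1 : ℝ) ≤ k := by exact_mod_cast hk1
  have hKk : m + 1 ≤ K * k := by
    rw [hk]
    exact (Nat.lt_mul_div_succ (m + 1) hKpos).le
  clear hk
  have hsum : (m : ℝ) + 1 + (m + k) ≤ L := by nlinarith
  have hsumN : m + 1 + (m + k) ≤ L := by exact_mod_cast hsum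
  obtain ⟨r, hr⟩ : ∃ r : ℕ, r = L - (m + k) := ⟨_, rfl⟩
  have hrR : (r : ℝ) = L - (m + k) := by
    rw [hr, Nat.cast_sub (by omega)]
    push_cast
    ring
  have hbR : (2 : ℝ) ≤ b := by exact_mod_cast hb
  have hb0 : (0 : ℝ) < b := by linarith
  obtain ⟨B, hBdef⟩ : ∃ B : ℝ, B = Real.log b := ⟨_, rfl⟩
  have hB : 1 / 2 ≤ B := by
    have h1 := Real.log_le_log (by norm_num) hbR
    rw [hBdef]; linarith
  obtain ⟨M, hM⟩ : ∃ M : ℕ, M = m + 1 + k := ⟨_, rfl⟩
  have hMpos : 0 < M := by omega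
  have hMR : (0 : ℝ) < M := by exact_mod_cast hMpos
  have hMR1 : (1 : ℝ) ≤ M := by exact_mod_cast hMpos
  have hML : (M : ℝ) ≤ L := by
    rw [hM]; push_cast
    nlinarith
  have hMlog : Real.log M ≤ ell := by
    rw [hell]
    exact Real.log_le_log hMR (by linarith)
  have hMlog0 : 0 ≤ Real.log M := Real.log_nonneg hMR1
  have hsB : 0 < s * B := by positivity
  have hbig : (m + 1 + k) * ((m + 1 + k) * b) ^ K * b < b ^ r := by
    rw [← hM]
    have h1 : Real.log ((M * (M * b) ^ K * b : ℕ) : ℝ) < Real.log ((b ^ r : ℕ) : ℝ) := by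
      push_cast
      rw [Real.log_mul (by positivity) (by positivity), Real.log_mul (by positivity) (by positivity),
        Real.log_pow, Real.log_pow, Real.log_mul (by positivity) (by positivity), ← hBdef]
      have a1 : (K : ℝ) * Real.log M ≤ K * ell := mul_le_mul_of_nonneg_left hMlog hKR.le
      have a2 : (K : ℝ) * B ≤ 4 * (s * B) := by nlinarith
      have a3 : 3 * s ≤ 6 * (s * B) := by nlinarith
      have a4 : B ≤ s * B := by nlinarith
      have a5 : 12 * s < r := by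
        rw [hrR]; nlinarith
      have a6 : 12 * s * B < r * B := mul_lt_mul_of_pos_right a5 (by linarith)
      nlinarith
    have h2 := (Real.log_lt_log_iff (by positivity) (by positivity)).1 h1
    exact_mod_cast h2
  obtain ⟨q, p, hq1, hqle, hqp⟩ := key x b hb (m + 1) k r K (by omega) hk1
    hKk (by omega) c hc (by omega) (fun i hi => hrel i (by omega)) hbig
  rw [← hM] at hqle hqp
  set H : ℝ := (((M * b) ^ K : ℕ) : ℝ) with hH
  have hHpos : 0 < H := by rw [hH]; positivity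
  have hlogH : Real.log H = K * (Real.log M + B) := by
    rw [hH]
    push_cast
    rw [Real.log_pow, Real.log_mul (by positivity) (by positivity), hBdef]
  have hqR : (1 : ℝ) ≤ q := by exact_mod_cast hq1
  have hq0 : (0 : ℝ) < q := by linarith
  have hlogq : Real.log q ≤ Real.log M + K * (Real.log M + B) + (m + k) * B := by
    have h1 := Real.log_le_log hq0 hqle
    rw [Real.log_mul (by positivity) (by positivity), Real.log_mul (by positivity) (by positivity),
      hlogH, Real.log_pow, ← hBdef] at h1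
    have e : ((M - 1 : ℕ) : ℝ) = m + k := by
      rw [hM, show m + 1 + k - 1 = m + k by omega]; push_cast; ring
    rw [e] at h1
    exact h1
  have hlogq0 : 0 ≤ Real.log q := Real.log_nonneg hqR
  have hlog1 : Real.log (1 + Real.log q) ≤ 15 * (s * B) := by
    refine log_bound L B s K ell (Real.log q) hLR hB hl hlL hs0.le hs2 hsL hKR.le hKl hlogq0
      (hlogq.trans ?_)
    have a1 : (K : ℝ) * (Real.log M + B) ≤ K * (ell + B) :=
      mul_le_mul_of_nonneg_left (by linarith) hKR.le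
    have a2 : ((m : ℝ) + k) * B ≤ L * B := mul_le_mul_of_nonneg_right (by linarith) (by linarith)
    linarith
  -- the inequality
  have h1 := hx q hq1 p
  have h2 : c0 * (b : ℝ) ^ r ≤ (q : ℝ) * (1 + Real.log q) ^ A * (M * H) := by
    calc c0 * (b : ℝ) ^ r ≤ ((q : ℝ) * (1 + Real.log q) ^ A * |q * x - p|) * (b : ℝ) ^ r :=
          mul_le_mul_of_nonneg_right h1 (by positivity)
      _ = (q : ℝ) * (1 + Real.log q) ^ A * (|q * x - p| * (b : ℝ) ^ r) := by ring
      _ ≤ _ := mul_le_mul_of_nonneg_left hqp (by positivity)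
  have h3 := Real.log_le_log (by positivity) h2
  rw [Real.log_mul hc0.ne' (by positivity), Real.log_pow,
    Real.log_mul (by positivity) (by positivity), Real.log_mul (by positivity) (by positivity),
    Real.log_pow, Real.log_mul (by positivity) (by positivity), hlogH, ← hBdef] at h3
  have h4 : -a0 ≤ Real.log c0 := by rw [ha0]; exact neg_abs_le _
  have b1 : (A : ℝ) * Real.log (1 + Real.log q) ≤ A * (15 * (s * B)) :=
    mul_le_mul_of_nonneg_left hlog1 hA0
  have b2 : a0 ≤ 2 * a0 * (s * B) := by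
    have : 1 ≤ 2 * (s * B) := by nlinarith
    nlinarith
  have b3 : Real.log M ≤ 2 * (s * B) := by nlinarith
  have b4 : (K : ℝ) * Real.log M ≤ 4 * (s * B) := by
    have := mul_le_mul_of_nonneg_left hMlog hKR.le
    nlinarith
  have b5 : (K : ℝ) * B ≤ 4 * (s * B) := by nlinarith
  have h5 : (r : ℝ) * B ≤ ((m + k) + (20 + 15 * A + 2 * a0) * s) * B := by
    linarith
  have h6 : (r : ℝ) ≤ (m + k) + (20 + 15 * A + 2 * a0) * s :=
    le_of_mul_le_mul_right h5 (by linarith)
  rw [hrR] at h6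
  have h7 : 2 * C * s ≤ (24 + 15 * A + 2 * a0) * s := by linarith
  have h8 := le_of_mul_le_mul_right h7 hs0
  linarith

end Pool.Agent.W47.LC
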