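import Pool.Agent.W47.LC.Rate

/-!
# Linear complexity of the digits with an error term: two-sided bound
-/

set_option autoImplicit false

namespace Pool.Agent.W47.LC

open Finset Polynomial Filter
open Pool.Agent.H831R3.LC (W small descend approx dig dig_abs W_eq complexity IsRec isRec_self
  exists_int_mult)

/-- from integer to rational relations -/
lemma ratRel (x : ℝ) (b L m : ℕ) (h : ∀ c : ℤ[X], c.natDegree ≤ m →
      (∀ i, i + m < L → W c (fun i => dig x b (i + 1)) i = 0) → c = 0)
    (c : ℕ → ℚ) (hc : ∀ i, i + m < L →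
      ∑ j ∈ range (m + 1), c j * (dig x b (i + 1 + j) : ℚ) = 0) :
    ∀ j ≤ m, c j = 0 := by
  obtain ⟨D, z, hD, hz⟩ := exists_int_mult (m + 1) c
  set t : ℤ[X] := ∑ j ∈ range (m + 1), C (z j) * X ^ j with ht
  have hco : ∀ j, t.coeff j = if j ≤ m then z j else 0 := by
    intro j
    rw [ht, finsetSum_coeff]
    simp only [coeff_C_mul, coeff_X_pow]
    by_cases h : j ≤ m
    · rw [Finset.sum_eq_single j]
      · simp [h]
      · intro i _ hij
        simp [Ne.symm hij]
      · intro h'
        rw [mem_range] at h'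
        omega
    · rw [if_neg h]
      refine Finset.sum_eq_zero fun i hi => ?_
      rw [mem_range] at hi
      rw [if_neg (by omega), mul_zero]
  have htd : t.natDegree ≤ m := by
    rw [natDegree_le_iff_coeff_eq_zero]
    intro N hN
    rw [hco, if_neg (by omega)]
  have h0 := h t htd (fun i hi => by
    rw [W_eq t _ i (m + 1) (by omega)]
    have h1 := hc i hi
    have h2 : ((∑ j ∈ range (m + 1), t.coeff j * dig x b (i + j + 1) : ℤ) : ℚ)
        = D * ∑ j ∈ range (m + 1), c j * (dig x b (i + 1 + j) : ℚ) := by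
      rw [Finset.mul_sum]
      push_cast
      refine Finset.sum_congr rfl fun j hj => ?_
      rw [mem_range] at hj
      rw [hco, if_pos (by omega), hz j hj, show i + 1 + j = i + j + 1 by ring]
      ring
    rw [h1, mul_zero] at h2
    exact_mod_cast h2)
  intro j hj
  have h1 : t.coeff j = 0 := by rw [h0, coeff_zero]
  rw [hco, if_pos hj] at h1
  have h2 := hz j (by omega)
  rw [h1] at h2
  have hDQ : (D : ℚ) ≠ 0 := by exact_mod_cast hD
  simpa [hDQ] using h2.symm

/-- no relations of small order gives recurrences of large order -/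
lemma upRel (x : ℝ) (b L m l : ℕ) (hl : L = m + l + 1)
    (h : ∀ c : ℕ → ℚ, (∀ i, i + l < L - 1 →
      ∑ j ∈ range (l + 1), c j * (dig x b (i + 1 + j) : ℚ) = 0) → ∀ j ≤ l, c j = 0) :
    ∃ c : ℕ → ℚ, ∀ i, i + m < L →
        (dig x b (i + 1 + m) : ℚ) = ∑ j ∈ range m, c j * (dig x b (i + 1 + j) : ℚ) := by
  set M : Matrix (Fin (l + 1)) (Fin m) ℚ := Matrix.of fun i j => (dig x b (i + 1 + j) : ℚ)
    with hM
  have hli : LinearIndependent ℚ M.row := by
    rw [Fintype.linearIndependent_iff]
    intro g hg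
    set c : ℕ → ℚ := fun j => if h : j < l + 1 then g ⟨j, h⟩ else 0 with hc
    have h1 := h c (fun i hi => by
      have h2 := congrFun hg ⟨i, by omega⟩
      rw [Finset.sum_apply] at h2
      rw [Finset.sum_range]
      simp only [Pi.zero_apply] at h2
      rw [← h2]
      refine Finset.sum_congr rfl fun j _ => ?_
      rw [hc]
      simp only [j.2, dif_pos, Pi.smul_apply, smul_eq_mul, Matrix.row, hM, Matrix.of_apply]
      rw [show i + 1 + (j : ℕ) = (j : ℕ) + 1 + i by ring])
    intro j
    have h3 := h1 j (by omega)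
    rw [hc] at h3
    simpa [j.2] using h3
  have hrank := hli.rank_matrix
  rw [Fintype.card_fin] at hrank
  have hsurj : LinearMap.range M.mulVecLin = ⊤ := by
    apply Submodule.eq_top_of_finrank_eq
    rw [Module.finrank_fin_fun]
    exact hrank
  have hmem : (fun i : Fin (l + 1) => (dig x b (i + 1 + m) : ℚ)) ∈ LinearMap.range M.mulVecLin := by
    rw [hsurj]; exact Submodule.mem_top
  obtain ⟨v, hv⟩ := hmem
  refine ⟨fun j => if h : j < m then v ⟨j, h⟩ else 0, fun i hi => ?_⟩
  have h2 := congrFun hv ⟨i, by omega⟩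
  rw [Matrix.mulVecLin_apply, Matrix.mulVec, dotProduct] at h2
  rw [Finset.sum_range]
  simp only at h2
  rw [← h2]
  refine Finset.sum_congr rfl fun j _ => ?_
  simp only [j.2, dif_pos, hM, Matrix.of_apply]
  ring

/-- the least order of a recurrence is at least `y` when there is no relation of order below `y` -/
lemma lowC (x : ℝ) (b L : ℕ) (y : ℝ)
    (h : ∀ m : ℕ, (m : ℝ) < y → ∀ c : ℤ[X], c.natDegree ≤ m →
      (∀ i, i + m < L → W c (fun i => dig x b (i + 1)) i = 0) → c = 0) :
    y ≤ complexity b x L := by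
  by_contra hcon
  push Not at hcon
  have hmem : IsRec b x L (complexity b x L) :=
    Nat.sInf_mem (s := {m | IsRec b x L m}) ⟨L, isRec_self b x L⟩
  obtain ⟨c, hc⟩ := hmem
  set m := complexity b x L with hm
  have h4 := ratRel x b L m (h m hcon) (fun j => if j = m then -1 else c j) (fun i hi => by
    rw [Finset.sum_range_succ]
    have h5 := hc (i + 1) (by omega) (by omega)
    simp only [if_true]
    have h6 : ∑ j ∈ range m, (if j = m then (-1 : ℚ) else c j) * (dig x b (i + 1 + j) : ℚ)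
        = ∑ j ∈ range m, c j * (dig x b (i + 1 + j) : ℚ) := by
      refine Finset.sum_congr rfl fun j hj => ?_
      rw [mem_range] at hj
      rw [if_neg (by omega)]
    rw [h6]
    unfold dig
    rw [← h5]
    ring)
  have h7 := h4 m le_rfl
  simp only [if_true] at h7
  norm_num at h7

lemma upC (x : ℝ) (b L m l : ℕ) (hl : L = m + l + 1)
    (h : ∀ c : ℤ[X], c.natDegree ≤ l →
      (∀ i, i + l < L - 1 → W c (fun i => dig x b (i + 1)) i = 0) → c = 0) :
    complexity b x L ≤ m := by
  obtain ⟨c, hc⟩ := upRel x b L m l hl (ratRel x b (L - 1) l h)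
  apply Nat.sInf_le
  refine ⟨c, fun i h5 h6 => ?_⟩
  have h7 := hc (i - 1) (by omega)
  rw [show i - 1 + 1 = i by omega] at h7
  exact h7

/-- **Two-sided bound with an error term.** -/
theorem two (x : ℝ) (A : ℕ) (c0 : ℝ) (hc0 : 0 < c0)
    (hx : ∀ q : ℕ, 1 ≤ q → ∀ p : ℤ, c0 ≤ (q : ℝ) * (1 + Real.log q) ^ A * |q * x - p|) :
    ∃ C : ℝ, ∀ L : ℕ, ∀ b : ℕ, 2 ≤ b →
      |(complexity b x L : ℝ) - L / 2| ≤ C * Real.sqrt (L * Real.log (L + 1)) := by
  obtain ⟨C, hC1, hC⟩ := main2 x A c0 hc0 hx
  refine ⟨C + 2, fun L b hb => ?_⟩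
  rcases Nat.eq_zero_or_pos L with h0 | hL
  · subst h0
    have h1 : complexity b x 0 ≤ 0 := Nat.sInf_le (isRec_self b x 0)
    have h2 : complexity b x 0 = 0 := by omega
    rw [h2]
    simp
  have hLR : (1 : ℝ) ≤ L := by exact_mod_cast hL
  have hl2 := Real.log_two_gt_d9
  have hl : 1 / 2 ≤ Real.log ((L : ℝ) + 1) := by
    have := Real.log_le_log (by norm_num) (by linarith : (2 : ℝ) ≤ L + 1)
    linarith
  obtain ⟨s, hs⟩ : ∃ s : ℝ, s = Real.sqrt (L * Real.log (L + 1)) := ⟨_, rfl⟩
  have hs12 : 1 / 2 ≤ s := by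
    rw [hs]
    apply Real.le_sqrt_of_sq_le
    nlinarith
  rw [← hs]
  have hlow : (L : ℝ) / 2 - C * s ≤ complexity b x L := by
    refine lowC x b L _ fun m hm => hC L hL b hb m ?_
    rw [← hs]
    linarith
  have hup : (complexity b x L : ℝ) ≤ L / 2 + (C + 2) * s := by
    obtain ⟨m, hm⟩ : ∃ m : ℕ, m = ⌈(L : ℝ) / 2 + C * s⌉₊ := ⟨_, rfl⟩
    have hm1 : (L : ℝ) / 2 + C * s ≤ m := by rw [hm]; exact Nat.le_ceil _
    have hm2 : (m : ℝ) < (L : ℝ) / 2 + C * s + 1 := by
      rw [hm]; exact Nat.ceil_lt_add_one (by positivity)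
    have hle : complexity b x L ≤ m := by
      rcases le_or_gt L m with h1 | h1
      · exact (Nat.sInf_le (isRec_self b x L)).trans h1
      obtain ⟨l, hl'⟩ : ∃ l, L = m + l + 1 := ⟨L - m - 1, by omega⟩
      have hmR : (0 : ℝ) < m := by nlinarith
      have hmpos : 0 < m := by exact_mod_cast hmR
      refine upC x b L m l hl' (hC (L - 1) (by omega) b hb l ?_)
      have e1 : ((L - 1 : ℕ) : ℝ) = L - 1 := by
        rw [Nat.cast_sub hL]; push_cast; ring
      have e2 : (L : ℝ) = m + l + 1 := by exact_mod_cast hl'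
      rw [e1]
      have h2 : Real.sqrt (((L : ℝ) - 1) * Real.log ((L : ℝ) - 1 + 1)) ≤ s := by
        rw [hs]
        apply Real.sqrt_le_sqrt
        have h3 : Real.log ((L : ℝ) - 1 + 1) ≤ Real.log (L + 1) :=
          Real.log_le_log (by linarith) (by linarith)
        have h4 : 0 ≤ Real.log ((L : ℝ) - 1 + 1) := Real.log_nonneg (by linarith)
        have h5 : (0 : ℝ) ≤ L - 1 := by linarith
        nlinarith
      have h6 := mul_le_mul_of_nonneg_left h2 (by linarith : 0 ≤ C)
      linarith
    have hleR : (complexity b x L : ℝ) ≤ m := by exact_mod_cast hle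
    nlinarith
  rw [abs_le]
  constructor
  · nlinarith
  · linarith

end Pool.Agent.W47.LC
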